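import Pool.Agent.LH38.Inj

set_option autoImplicit false

/-!
# LH38/Avg: averaging over the offset

`card (Few Q K) * (1 + u)^(n/w) ≤ w * card (Mp Q m) * card (Psi n K)`, `w = 30 u`, `n = N + 1`.
-/

namespace Pool.LH38

open Pool.HB45 Pool.PH43 Pool.SC25

variable {N : ℕ}

theorem bern {e u : ℕ} (hu : 0 < u) (h : e ≤ u) : (1 + u) ^ e ≤ (1 + e) ^ u := by
  have hu' : (0 : ℝ) < u := by exact_mod_cast hu
  have h1 : (1 + (u : ℝ)) ^ ((e : ℝ) / u) ≤ 1 + (e : ℝ) / u * u :=
    rpow_one_add_le_one_add_mul_self (by linarith) (by positivity)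
      (by rw [div_le_one hu']; exact_mod_cast h)
  rw [div_mul_cancel₀ _ hu'.ne'] at h1
  have h2 : ((1 + (u : ℝ)) ^ ((e : ℝ) / u)) ^ u ≤ (1 + (e : ℝ)) ^ u :=
    pow_le_pow_left₀ (by positivity) h1 u
  rw [← Real.rpow_natCast, ← Real.rpow_mul (by positivity), div_mul_cancel₀ _ hu'.ne',
    Real.rpow_natCast] at h2
  exact_mod_cast h2

theorem card_off {w u : ℕ} (hw : 0 < w) (huw : u ≤ w) (A : ℕ) :
    u ≤ ((Finset.range w).filter fun o => w - u ≤ (A + o) % w).card := by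
  have h1 : (Finset.Ico (w - u) w).card ≤
      ((Finset.range w).filter fun o => w - u ≤ (A + o) % w).card := by
    refine Finset.card_le_card_of_surjOn (fun o => (A + o) % w) ?_
    intro r hr
    rw [Finset.mem_coe, Finset.mem_Ico] at hr
    refine ⟨(r + (w - A % w)) % w, ?_, ?_⟩
    · rw [Finset.mem_coe, Finset.mem_filter, Finset.mem_range]
      refine ⟨Nat.mod_lt _ hw, ?_⟩
      rw [Nat.add_mod_mod]
      have h2 : A + (r + (w - A % w)) = r + w * (A / w + 1) := by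
        have h3 := Nat.div_add_mod A w
        have h4 := Nat.mod_lt A hw
        have h5 : w * (A / w + 1) = w * (A / w) + w := by ring
        omega
      rw [h2, Nat.add_mul_mod_self_left, Nat.mod_eq_of_lt hr.2]
      exact hr.1
    · show (A + (r + (w - A % w)) % w) % w = r
      rw [Nat.add_mod_mod]
      have h2 : A + (r + (w - A % w)) = r + w * (A / w + 1) := by
        have h3 := Nat.div_add_mod A w
        have h4 := Nat.mod_lt A hw
        have h5 : w * (A / w + 1) = w * (A / w) + w := by ring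
        omega
      rw [h2, Nat.add_mul_mod_self_left, Nat.mod_eq_of_lt hr.2]
  rw [Nat.card_Ico] at h1
  omega

/-- number of letters in windows -/
theorem card_win {h : ℕ} {Q : Rel (N + 1)} {κ : Fin (N + 1) → ℕ} (hκ : Lev h Q κ)
    {u w o K m : ℕ} (hw : 0 < w) (ho : o < w) (hr : h + u * K + w ≤ (m - 1) * w)
    {g : Equiv.Perm (Fin (N + 1))} (hg : g ∈ Few Q K) :
    (Finset.univ.filter fun x => w - u ≤ G Q κ u o g x % w).card =
      ∑ i : Fin K × Fin m, (E Q κ u w o g i.1.val i.2.val).card := by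
  classical
  have h2 : ∀ x, pa Q g x < K := by
    intro x
    have h1 := (mem_Few.1 hg).2
    have := pc_le_inc Q g (g.symm x)
    unfold pa
    omega
  have h3 : ∀ x, G Q κ u o g x / w < m := by
    intro x
    have := F_lt hκ hw ho hr hg (fun _ _ => 0) x
    omega
  rw [Finset.card_eq_sum_card_fiberwise (t := Finset.univ)
    (f := fun x => ((⟨pa Q g x, h2 x⟩ : Fin K), (⟨G Q κ u o g x / w, h3 x⟩ : Fin m)))
    (fun x _ => Finset.mem_coe.2 (Finset.mem_univ _))]
  apply Finset.sum_congr rfl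
  intro i _
  congr 1
  ext x
  rw [mem_E, Finset.mem_filter, Finset.mem_filter]
  constructor
  · rintro ⟨⟨-, h4⟩, h5⟩
    refine ⟨h4, ?_, ?_⟩
    · rw [← h5]
    · rw [← h5]
  · rintro ⟨h4, h5, h6⟩
    refine ⟨⟨Finset.mem_univ _, h4⟩, ?_⟩
    ext
    · exact h5
    · exact h6

theorem exists_o {h : ℕ} {Q : Rel (N + 1)} {κ : Fin (N + 1) → ℕ} (hκ : Lev h Q κ)
    (htr : ∀ a b c, Q a b → Q b c → Q a c) {u w K m : ℕ} (hu : 0 < u) (huw : u ≤ w)
    (hr : h + u * K + w ≤ (m - 1) * w) {g : Equiv.Perm (Fin (N + 1))} (hg : g ∈ Few Q K) :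
    ∃ o < w, (1 + u) ^ (N + 1) ≤
      (∏ i : Fin K × Fin m, ((E Q κ u w o g i.1.val i.2.val).card + 1)) ^ w := by
  classical
  have hw : 0 < w := by omega
  have h1 : (N + 1) * u ≤ ∑ o ∈ Finset.range w,
      (Finset.univ.filter fun x => w - u ≤ G Q κ u o g x % w).card := by
    have h2 : ∑ o ∈ Finset.range w,
        (Finset.univ.filter fun x => w - u ≤ G Q κ u o g x % w).card =
        ∑ x : Fin (N + 1), ((Finset.range w).filter fun o => w - u ≤ G Q κ u o g x % w).card := by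
      simp only [Finset.card_filter]
      rw [Finset.sum_comm]
    rw [h2]
    have h3 : (N + 1) * u = ∑ _x : Fin (N + 1), u := by
      rw [Finset.sum_const, Finset.card_univ, Fintype.card_fin, smul_eq_mul]
    rw [h3]
    exact Finset.sum_le_sum fun x _ => card_off hw huw (κ x + u * pa Q g x)
  obtain ⟨o, ho, hV⟩ : ∃ o < w, (N + 1) * u ≤
      (Finset.univ.filter fun x => w - u ≤ G Q κ u o g x % w).card * w := by
    by_contra hcon
    push Not at hcon
    have h4 : (∑ o ∈ Finset.range w,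
        (Finset.univ.filter fun x => w - u ≤ G Q κ u o g x % w).card) * w <
          ∑ _o ∈ Finset.range w, (N + 1) * u := by
      rw [Finset.sum_mul]
      exact Finset.sum_lt_sum_of_nonempty ⟨0, Finset.mem_range.2 hw⟩ fun o ho =>
        hcon o (Finset.mem_range.1 ho)
    rw [Finset.sum_const, Finset.card_range, smul_eq_mul] at h4
    have h5 := Nat.mul_le_mul_right w h1
    have h6 : (N + 1) * u * w = w * ((N + 1) * u) := by ring
    omega
  refine ⟨o, ho, ?_⟩
  rw [card_win hκ hw ho hr hg] at hV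
  set V := ∑ i : Fin K × Fin m, (E Q κ u w o g i.1.val i.2.val).card with hVdef
  set Pr := ∏ i : Fin K × Fin m, ((E Q κ u w o g i.1.val i.2.val).card + 1) with hPr
  have h7 : (1 + u) ^ V ≤ Pr ^ u := by
    rw [hVdef, ← Finset.prod_pow_eq_pow_sum, hPr, ← Finset.prod_pow]
    refine Finset.prod_le_prod' fun i _ => ?_
    rw [Nat.add_comm (E Q κ u w o g i.1.val i.2.val).card 1]
    exact bern hu (card_E_le hκ htr hw huw g _ _)
  have h8 : ((1 + u) ^ (N + 1)) ^ u ≤ (Pr ^ w) ^ u := by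
    calc ((1 + u) ^ (N + 1)) ^ u = (1 + u) ^ ((N + 1) * u) := by rw [← pow_mul]
      _ ≤ (1 + u) ^ (V * w) := Nat.pow_le_pow_right (by omega) hV
      _ = ((1 + u) ^ V) ^ w := by rw [pow_mul]
      _ ≤ (Pr ^ u) ^ w := Nat.pow_le_pow_left h7 w
      _ = (Pr ^ w) ^ u := by rw [← pow_mul, ← pow_mul, mul_comm]
  exact (Nat.pow_le_pow_iff_left (by omega)).1 h8

/-- THE COUNT OF WORDS WITH FEW PIECES. -/
theorem few_le {h : ℕ} {Q : Rel (N + 1)} {κ : Fin (N + 1) → ℕ} (hκ : Lev h Q κ)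
    (htr : ∀ a b c, Q a b → Q b c → Q a c) {u w K m : ℕ} (hu : 0 < u) (hw : w = 30 * u)
    (hr : h + u * K + w ≤ (m - 1) * w) :
    ((Few Q K).card : ℝ) * (1 + (u : ℝ)) ^ (((N + 1 : ℕ) : ℝ) / (w : ℝ)) ≤
      (w : ℝ) * (((Mp Q m).card : ℝ) * (Psi (N + 1) K).card) := by
  classical
  have hw0 : 0 < w := by omega
  have huw : u ≤ w := by omega
  have hwR : (0 : ℝ) < (w : ℝ) := by exact_mod_cast hw0
  obtain ⟨R, hR⟩ : ∃ R : ℝ, R = (1 + (u : ℝ)) ^ (((N + 1 : ℕ) : ℝ) / (w : ℝ)) := ⟨_, rfl⟩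
  rw [← hR]
  have hR0 : 0 ≤ R := by rw [hR]; positivity
  have hRw : R ^ w = (((1 + u) ^ (N + 1) : ℕ) : ℝ) := by
    rw [hR, ← Real.rpow_natCast, ← Real.rpow_mul (by positivity), div_mul_cancel₀ _ hwR.ne',
      Real.rpow_natCast]
    push_cast
    rfl
  obtain ⟨P, hP⟩ : ∃ P : ℕ → Equiv.Perm (Fin (N + 1)) → ℕ, ∀ o g, P o g =
    ∏ i : Fin K × Fin m, ((E Q κ u w o g i.1.val i.2.val).card + 1) := ⟨_, fun _ _ => rfl⟩
  have h1 : ∀ g ∈ Few Q K, R ≤ ∑ o ∈ Finset.range w, (P o g : ℝ) := by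
    intro g hg
    obtain ⟨o, ho, h2⟩ := exists_o (u := u) (w := w) hκ htr hu huw hr hg
    rw [← hP] at h2
    have h3 : R ≤ (P o g : ℝ) := by
      have h4 : R ^ w ≤ (P o g : ℝ) ^ w := by
        rw [hRw]
        exact_mod_cast h2
      exact le_of_pow_le_pow_left₀ hw0.ne' (by positivity) h4
    exact h3.trans (Finset.single_le_sum (f := fun o => (P o g : ℝ))
      (fun _ _ => by positivity) (Finset.mem_range.2 ho))
  have h2 : ((Few Q K).card : ℝ) * R ≤ ∑ g ∈ Few Q K, ∑ o ∈ Finset.range w, (P o g : ℝ) := by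
    rw [← nsmul_eq_mul, ← Finset.sum_const]
    exact Finset.sum_le_sum h1
  refine h2.trans ?_
  rw [Finset.sum_comm]
  have h3 : ∀ o ∈ Finset.range w, ∑ g ∈ Few Q K, (P o g : ℝ) ≤
      ((Mp Q m).card : ℝ) * (Psi (N + 1) K).card := by
    intro o ho
    have h5 := count_o (u := u) (w := w) (o := o) (K := K) (m := m) hκ htr hu hw
      (Finset.mem_range.1 ho) hr
    have h6 : ∑ g ∈ Few Q K, P o g ≤ (Mp Q m).card * (Psi (N + 1) K).card := by
      refine le_trans (le_of_eq (Finset.sum_congr rfl fun g _ => hP o g)) h5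
    exact_mod_cast h6
  refine (Finset.sum_le_sum h3).trans ?_
  rw [Finset.sum_const, Finset.card_range, nsmul_eq_mul]

end Pool.LH38
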