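import Pool.Agent.LH38.Inj
import Pool.Agent.PH43.Flip
import Pool.Agent.SC25.Om

set_option autoImplicit false

/-!
# LH38/Cnt: the number of functions with small support, the first failure bound and the swaps
-/

namespace Pool.LH38

open Pool.HB45 Pool.PH43 Pool.SC25

theorem psi_le (n K : ℕ) {y : ℝ} (hy0 : 0 < y) (hy1 : y ≤ 1) :
    ((Psi n K).card : ℝ) * y ^ K ≤ (1 + 31 * y) ^ n := by
  classical
  have h1 : ((Psi n K).card : ℝ) * y ^ K ≤
      ∑ ψ ∈ Psi n K, y ^ (Finset.univ.filter fun x => ψ x ≠ none).card := by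
    rw [← nsmul_eq_mul, ← Finset.sum_const]
    refine Finset.sum_le_sum fun ψ hψ => ?_
    exact pow_le_pow_of_le_one hy0.le hy1 (mem_Psi.1 hψ)
  have h2 : ∑ ψ ∈ Psi n K, y ^ (Finset.univ.filter fun x => ψ x ≠ none).card ≤
      ∑ ψ : Fin n → Option (Fin 31), y ^ (Finset.univ.filter fun x => ψ x ≠ none).card :=
    Finset.sum_le_sum_of_subset_of_nonneg (Finset.subset_univ _) fun _ _ _ => by positivity
  have h3 : ∀ ψ : Fin n → Option (Fin 31), y ^ (Finset.univ.filter fun x => ψ x ≠ none).card =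
      ∏ x, if ψ x ≠ none then y else 1 := by
    intro ψ
    rw [Finset.prod_ite]
    simp
  have h4 : ∑ ψ : Fin n → Option (Fin 31), ∏ x, (if ψ x ≠ none then y else 1) =
      (1 + 31 * y) ^ n := by
    have h5 := (Finset.prod_univ_sum (fun _ : Fin n => (Finset.univ : Finset (Option (Fin 31))))
      (fun _ v => if v ≠ none then y else (1 : ℝ))).symm
    rw [Fintype.piFinset_univ] at h5
    rw [h5, Finset.prod_const, Finset.card_univ, Fintype.card_fin, Fintype.sum_option]
    simp
  calc ((Psi n K).card : ℝ) * y ^ K ≤ _ := h1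
    _ ≤ _ := h2
    _ = ∑ ψ : Fin n → Option (Fin 31), ∏ x, (if ψ x ≠ none then y else 1) :=
        Finset.sum_congr rfl fun ψ _ => h3 ψ
    _ = _ := h4

theorem choose_le (M r : ℕ) {x : ℝ} (hx : 0 ≤ x) : (M.choose r : ℝ) * x ^ r ≤ (1 + x) ^ M := by
  rw [add_comm, add_pow]
  rcases le_or_gt r M with h | h
  · refine le_trans (le_of_eq ?_) (Finset.single_le_sum
      (f := fun i => x ^ i * 1 ^ (M - i) * (M.choose i : ℝ)) (fun _ _ => by positivity)
      (Finset.mem_range.2 (Nat.lt_succ_of_le h)))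
    simp
    ring
  · rw [Nat.choose_eq_zero_of_lt h]
    simp
    exact Finset.sum_nonneg fun _ _ => by positivity

variable {N : ℕ}

/-- first failure -/
theorem mp_first {Q : Rel (N + 1)} {lab : Fin (N + 1) → ℕ} (hn : Nat' Q lab) {j : ℕ}
    (hw : ∀ i ≤ j, w Q lab i ≤ w Q lab j) :
    (Mp Q (j + 1)).card ≤ (j + 1) * w Q lab j * (j + 1 + N).choose (N + 1) := by
  classical
  rw [om_card hn]
  have h1 : ∑ g ∈ LE Q, (j + 1 + N - des lab g).choose (N + 1) ≤
      ∑ g ∈ LE Q, if des lab g ∈ Finset.range (j + 1) then (j + 1 + N).choose (N + 1) else 0 := by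
    refine Finset.sum_le_sum fun g _ => ?_
    split_ifs with h
    · exact Nat.choose_le_choose _ (Nat.sub_le _ _)
    · rw [Finset.mem_range] at h
      rw [Nat.choose_eq_zero_of_lt (by omega)]
  refine h1.trans ?_
  rw [← Finset.sum_filter, Finset.sum_const, smul_eq_mul]
  refine Nat.mul_le_mul_right _ ?_
  rw [Finset.card_eq_sum_card_fiberwise (t := Finset.range (j + 1)) (f := fun g => des lab g)
    (fun g hg => by
      rw [Finset.mem_coe, Finset.mem_filter] at hg
      exact Finset.mem_coe.2 hg.2)]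
  have h2 : ∀ i ∈ Finset.range (j + 1), (((LE Q).filter fun g =>
      des lab g ∈ Finset.range (j + 1)).filter fun g => des lab g = i).card ≤ w Q lab j := by
    intro i hi
    refine le_trans ?_ (hw i (Nat.lt_succ_iff.1 (Finset.mem_range.1 hi)))
    rw [← card_Lj]
    refine Finset.card_le_card fun g hg => ?_
    rw [Finset.mem_filter, Finset.mem_filter] at hg
    exact mem_Lj.2 ⟨hg.1.1, hg.2⟩
  refine (Finset.sum_le_sum h2).trans ?_
  rw [Finset.sum_const, Finset.card_range, smul_eq_mul]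

/-- incomparable neighbours are flips up or near a descent -/
theorem inc_le (Q : Rel (N + 1)) (lab : Fin (N + 1) → ℕ) (g : Equiv.Perm (Fin (N + 1))) :
    inc Q g ≤ (Up Q lab g).card + 3 * des lab g := by
  classical
  have hA : ((Finset.univ : Finset (Fin N)).filter fun p => ∃ q ∈ DS lab g, q.val = p.val).card ≤
      des lab g := by
    refine Finset.card_le_card_of_injOn id ?_ (fun a _ b _ h => h)
    intro p hp
    obtain ⟨-, q, hq, h⟩ := Finset.mem_filter.1 (Finset.mem_coe.1 hp)
    have : q = p := Fin.ext h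
    subst this
    exact hq
  have hB : ((Finset.univ : Finset (Fin N)).filter fun p => ∃ q ∈ DS lab g, q.val + 1 = p.val).card ≤
      des lab g := by
    rw [← card_DS]
    refine Finset.card_le_card_of_injOn (fun p => ⟨p.val - 1, by have := p.isLt; omega⟩) ?_ ?_
    · intro p hp
      obtain ⟨-, q, hq, h⟩ := Finset.mem_filter.1 (Finset.mem_coe.1 hp)
      have : (⟨p.val - 1, by have := p.isLt; omega⟩ : Fin N) = q := Fin.ext (by simp; omega)
      simp only [Finset.mem_coe]
      rw [this]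
      exact hq
    · intro a ha b hb hab
      obtain ⟨-, q, hq, h⟩ := Finset.mem_filter.1 (Finset.mem_coe.1 ha)
      obtain ⟨-, q', hq', h'⟩ := Finset.mem_filter.1 (Finset.mem_coe.1 hb)
      simp only [Fin.mk.injEq] at hab
      apply Fin.ext
      omega
  have hC : ((Finset.univ : Finset (Fin N)).filter fun p => ∃ q ∈ DS lab g, q.val = p.val + 1).card ≤
      des lab g := by
    rw [← card_DS]
    have hex : ∀ p ∈ ((Finset.univ : Finset (Fin N)).filter fun p => ∃ q ∈ DS lab g,
        q.val = p.val + 1), ∃ q ∈ DS lab g, q.val = p.val + 1 := fun p hp =>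
      (Finset.mem_filter.1 hp).2
    choose! f hf1 hf2 using hex
    refine Finset.card_le_card_of_injOn f (fun p hp => hf1 p hp) ?_
    intro a ha b hb hab
    have h1 := hf2 a (Finset.mem_coe.1 ha)
    have h2 := hf2 b (Finset.mem_coe.1 hb)
    rw [hab] at h1
    apply Fin.ext
    omega
  have hcov : inc Q g ≤ (Up Q lab g ∪ ((((Finset.univ : Finset (Fin N)).filter fun p =>
      ∃ q ∈ DS lab g, q.val = p.val) ∪ ((Finset.univ : Finset (Fin N)).filter fun p =>
      ∃ q ∈ DS lab g, q.val + 1 = p.val)) ∪ ((Finset.univ : Finset (Fin N)).filter fun p =>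
      ∃ q ∈ DS lab g, q.val = p.val + 1))).card := by
    unfold inc
    refine Finset.card_le_card fun p hp' => ?_
    have hp := (Finset.mem_filter.1 hp').2
    by_cases hU : p ∈ Up Q lab g
    · exact Finset.mem_union_left _ hU
    · rw [mem_Up] at hU
      push Not at hU
      obtain ⟨q, hq1, hq2⟩ := hU hp
      simp only [Finset.mem_union, Finset.mem_filter, Finset.mem_univ, true_and]
      rcases hq1 with h | h | h
      · exact Or.inr (Or.inl (Or.inl ⟨q, hq2, h⟩))
      · exact Or.inr (Or.inl (Or.inr ⟨q, hq2, h⟩))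
      · exact Or.inr (Or.inr ⟨q, hq2, h⟩)
  have h1 := Finset.card_union_le (Up Q lab g) ((((Finset.univ : Finset (Fin N)).filter fun p =>
      ∃ q ∈ DS lab g, q.val = p.val) ∪ ((Finset.univ : Finset (Fin N)).filter fun p =>
      ∃ q ∈ DS lab g, q.val + 1 = p.val)) ∪ ((Finset.univ : Finset (Fin N)).filter fun p =>
      ∃ q ∈ DS lab g, q.val = p.val + 1))
  have h2 := Finset.card_union_le (((Finset.univ : Finset (Fin N)).filter fun p =>
      ∃ q ∈ DS lab g, q.val = p.val) ∪ ((Finset.univ : Finset (Fin N)).filter fun p =>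
      ∃ q ∈ DS lab g, q.val + 1 = p.val)) ((Finset.univ : Finset (Fin N)).filter fun p =>
      ∃ q ∈ DS lab g, q.val = p.val + 1)
  have h3 := Finset.card_union_le ((Finset.univ : Finset (Fin N)).filter fun p =>
      ∃ q ∈ DS lab g, q.val = p.val) ((Finset.univ : Finset (Fin N)).filter fun p =>
      ∃ q ∈ DS lab g, q.val + 1 = p.val)
  omega

/-- double counting of the flips -/
theorem sum_Up {j : ℕ} {Q : Rel (N + 1)} {lab : Fin (N + 1) → ℕ} (hn : Nat' Q lab) :
    ∑ g ∈ Lj Q lab j, (Up Q lab g).card ≤ w Q lab (j + 1) * (j + 1) := by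
  classical
  have h2 : ((Lj Q lab (j + 1)).sigma fun g => DS lab g).card = w Q lab (j + 1) * (j + 1) := by
    rw [Finset.card_sigma, Finset.sum_congr rfl (fun g hg => by
      rw [card_DS, (mem_Lj.1 hg).2]), Finset.sum_const, smul_eq_mul, card_Lj]
  rw [← h2, ← Finset.card_sigma]
  refine Finset.card_le_card_of_injOn (fun x => ⟨sw x.1 x.2, x.2⟩) ?_ ?_
  · rintro ⟨g, p⟩ hx
    rw [Finset.mem_coe, Finset.mem_sigma] at hx
    obtain ⟨hg, hp⟩ := hx
    obtain ⟨hg1, hg2⟩ := mem_Lj.1 hg
    have h4 := DS_sw hn hp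
    have h5 : p ∉ DS lab g := (mem_Up.1 hp).2 p (Or.inl rfl)
    rw [Finset.mem_coe, Finset.mem_sigma]
    refine ⟨mem_Lj.2 ⟨sw_mem hg1 (mem_Up.1 hp).1, ?_⟩, ?_⟩
    · show des lab (sw g p) = j + 1
      rw [← card_DS, h4, Finset.card_insert_of_notMem h5, card_DS, hg2]
    · show p ∈ DS lab (sw g p)
      rw [h4]
      exact Finset.mem_insert_self _ _
  · rintro ⟨g, p⟩ - ⟨g', p'⟩ - hx
    simp only [Sigma.mk.injEq, heq_eq_eq] at hx
    obtain ⟨hx1, rfl⟩ := hx
    have := congrArg (fun g => sw g p) hx1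
    simp only [sw_sw] at this
    rw [this]

/-- If at most half of the words with `j` descents have at most `5 (j + 1)` pieces then
`w_j ≤ w_(j+1)`. -/
theorem w_le_of_few {j : ℕ} {Q : Rel (N + 1)} {lab : Fin (N + 1) → ℕ} (hn : Nat' Q lab)
    (hf : 2 * (Few Q (5 * (j + 1))).card ≤ w Q lab j) : w Q lab j ≤ w Q lab (j + 1) := by
  classical
  have h1 := sum_Up (j := j) hn
  have h2 := Finset.card_filter_add_card_filter_not (s := Lj Q lab j)
    (fun g => inc Q g + 1 ≤ 5 * (j + 1))
  rw [card_Lj] at h2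
  have h3 : ((Lj Q lab j).filter fun g => inc Q g + 1 ≤ 5 * (j + 1)).card ≤
      (Few Q (5 * (j + 1))).card := by
    refine Finset.card_le_card fun g hg => ?_
    rw [Finset.mem_filter] at hg
    exact mem_Few.2 ⟨(mem_Lj.1 hg.1).1, hg.2⟩
  have h4 : ((Lj Q lab j).filter fun g => ¬ inc Q g + 1 ≤ 5 * (j + 1)).card * (2 * (j + 1)) ≤
      ∑ g ∈ Lj Q lab j, (Up Q lab g).card := by
    rw [← smul_eq_mul, ← Finset.sum_const]
    refine le_trans (Finset.sum_le_sum fun g hg => ?_)
      (Finset.sum_le_sum_of_subset_of_nonneg (Finset.filter_subset _ _) fun _ _ _ => Nat.zero_le _)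
    rw [Finset.mem_filter] at hg
    have h5 := inc_le Q lab g
    rw [(mem_Lj.1 hg.1).2] at h5
    have h6 := hg.2
    omega
  set B := ((Lj Q lab j).filter fun g => ¬ inc Q g + 1 ≤ 5 * (j + 1)).card
  have h5 : w Q lab j ≤ 2 * B := by omega
  have h6 : w Q lab j * (j + 1) ≤ w Q lab (j + 1) * (j + 1) := by
    calc w Q lab j * (j + 1) ≤ 2 * B * (j + 1) := Nat.mul_le_mul_right _ h5
      _ = B * (2 * (j + 1)) := by ring
      _ ≤ _ := h4.trans h1
  exact Nat.le_of_mul_le_mul_right h6 (Nat.succ_pos j)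

end Pool.LH38
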