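import Pool.Agent.LH38.Maps

set_option autoImplicit false

/-!
# LH38/Inj: words with at most `K` pieces are few

For every offset `o`, `∑_g ∏ (windows) (1 + |E|) ≤ (number of maps to m levels) * (number of ψ)`.
-/

namespace Pool.LH38

open Pool.HB45 Pool.PH43 Pool.SC25

variable {N : ℕ}

/-- functions with small support -/
noncomputable def Psi (n K : ℕ) : Finset (Fin n → Option (Fin 31)) := by
  classical
  exact Finset.univ.filter fun ψ => (Finset.univ.filter fun x => ψ x ≠ none).card ≤ K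

theorem mem_Psi {n K : ℕ} {ψ : Fin n → Option (Fin 31)} :
    ψ ∈ Psi n K ↔ (Finset.univ.filter fun x => ψ x ≠ none).card ≤ K := by
  classical
  unfold Psi
  rw [Finset.mem_filter]
  simp

/-- words with at most `K` pieces -/
noncomputable def Few (Q : Rel (N + 1)) (K : ℕ) : Finset (Equiv.Perm (Fin (N + 1))) := by
  classical
  exact (LE Q).filter fun g => inc Q g + 1 ≤ K

theorem mem_Few {Q : Rel (N + 1)} {K : ℕ} {g : Equiv.Perm (Fin (N + 1))} :
    g ∈ Few Q K ↔ g ∈ LE Q ∧ inc Q g + 1 ≤ K := by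
  classical
  unfold Few
  rw [Finset.mem_filter]

/-- extension of a choice function -/
def ex {K m : ℕ} (c : Fin K × Fin m → ℕ) (a q : ℕ) : ℕ :=
  if h : a < K ∧ q < m then c (⟨a, h.1⟩, ⟨q, h.2⟩) else 0

theorem ex_eq {K m : ℕ} (c : Fin K × Fin m → ℕ) (i : Fin K × Fin m) :
    ex c i.1.val i.2.val = c i := by
  unfold ex
  rw [dif_pos ⟨i.1.isLt, i.2.isLt⟩]

/-- the choices for a word -/
noncomputable def Ch (Q : Rel (N + 1)) (κ : Fin (N + 1) → ℕ) (u w o K m : ℕ)
    (g : Equiv.Perm (Fin (N + 1))) : Finset (Fin K × Fin m → ℕ) :=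
  Fintype.piFinset fun i => Finset.range ((E Q κ u w o g i.1.val i.2.val).card + 1)

theorem card_Ch (Q : Rel (N + 1)) (κ : Fin (N + 1) → ℕ) (u w o K m : ℕ)
    (g : Equiv.Perm (Fin (N + 1))) : (Ch Q κ u w o K m g).card =
      ∏ i : Fin K × Fin m, ((E Q κ u w o g i.1.val i.2.val).card + 1) := by
  unfold Ch
  rw [Fintype.card_piFinset]
  simp

open Classical in
/-- the residues of the tops -/
noncomputable def res (Q : Rel (N + 1)) (κ : Fin (N + 1) → ℕ) (u w o : ℕ)
    (g : Equiv.Perm (Fin (N + 1))) (c : ℕ → ℕ → ℕ) (x : Fin (N + 1)) : Option (Fin 31) :=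
  if Top Q g x then
    some (Fin.ofNat 31 ((G Q κ u o g x + u - F Q κ u w o g c x * w) / u)) else none

theorem res_lt {Q : Rel (N + 1)} {κ : Fin (N + 1) → ℕ} {u w o : ℕ} (hu : 0 < u)
    (hw : w = 30 * u) (g : Equiv.Perm (Fin (N + 1))) (c : ℕ → ℕ → ℕ) (x : Fin (N + 1)) :
    (G Q κ u o g x + u - F Q κ u w o g c x * w) / u < 31 := by
  obtain ⟨h1, h2⟩ := F_bounds (Q := Q) (κ := κ) (u := u) (w := w) (o := o) (by omega) (by omega) g c x
  rw [Nat.div_lt_iff_lt_mul hu]
  have h3 : (F Q κ u w o g c x + 1) * w = F Q κ u w o g c x * w + w := by ring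
  omega

theorem F_lt {h : ℕ} {Q : Rel (N + 1)} {κ : Fin (N + 1) → ℕ} (hκ : Lev h Q κ) {u w o K m : ℕ}
    (hw : 0 < w) (ho : o < w) (hr : h + u * K + w ≤ (m - 1) * w) {g : Equiv.Perm (Fin (N + 1))}
    (hg : g ∈ Few Q K) (c : ℕ → ℕ → ℕ) (x : Fin (N + 1)) :
    G Q κ u o g x / w + 1 < m := by
  have h1 := (mem_Few.1 hg).2
  have h2 : pa Q g x + 1 ≤ K := by
    have := pc_le_inc Q g (g.symm x)
    unfold pa
    omega
  have h3 := Nat.mul_le_mul_left u h2
  have h4 := hκ.lt x
  have h5 : G Q κ u o g x < (m - 1) * w := by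
    unfold G
    rw [mul_add, mul_one] at h3
    omega
  have h6 := (Nat.div_lt_iff_lt_mul hw).2 h5
  generalize G Q κ u o g x / w = q at h6 ⊢
  omega

theorem count_o {h : ℕ} {Q : Rel (N + 1)} {κ : Fin (N + 1) → ℕ} (hκ : Lev h Q κ)
    (htr : ∀ a b c, Q a b → Q b c → Q a c) {u w o K m : ℕ} (hu : 0 < u) (hw : w = 30 * u)
    (ho : o < w) (hr : h + u * K + w ≤ (m - 1) * w) :
    ∑ g ∈ Few Q K, ∏ i : Fin K × Fin m, ((E Q κ u w o g i.1.val i.2.val).card + 1) ≤
      (Mp Q m).card * (Psi (N + 1) K).card := by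
  classical
  have hw0 : 0 < w := by omega
  rw [← Finset.card_product]
  have h1 : ∑ g ∈ Few Q K, ∏ i : Fin K × Fin m, ((E Q κ u w o g i.1.val i.2.val).card + 1) =
      ((Few Q K).sigma fun g => Ch Q κ u w o K m g).card := by
    rw [Finset.card_sigma]
    exact Finset.sum_congr rfl fun g _ => (card_Ch Q κ u w o K m g).symm
  rw [h1]
  have hm0 : ∀ g ∈ Few Q K, ∀ c : ℕ → ℕ → ℕ, ∀ x, F Q κ u w o g c x < m := by
    intro g hg c x
    have := F_lt hκ hw0 ho hr hg c x
    unfold F
    split_ifs <;> omega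
  have hmpos : 0 < m := by
    rcases Nat.eq_zero_or_pos m with h | h
    · subst h
      simp at hr
      omega
    · exact h
  refine Finset.card_le_card_of_injOn (fun y =>
    (fun x => ⟨F Q κ u w o y.1 (ex y.2) x % m, Nat.mod_lt _ hmpos⟩,
      res Q κ u w o y.1 (ex y.2))) ?_ ?_
  · rintro ⟨g, c⟩ hy
    rw [Finset.mem_coe, Finset.mem_sigma] at hy
    have hg : g ∈ Few Q K := hy.1
    rw [Finset.mem_coe, Finset.mem_product]
    refine ⟨mem_Mp.2 fun a b hab => ?_, mem_Psi.2 ?_⟩
    · show F Q κ u w o g (ex c) a % m ≤ F Q κ u w o g (ex c) b % m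
      rw [Nat.mod_eq_of_lt (hm0 g hg _ a), Nat.mod_eq_of_lt (hm0 g hg _ b)]
      exact F_mono hκ hw0 (mem_Few.1 hg).1 _ hab
    · refine le_trans (Finset.card_le_card fun x hx => ?_)
        ((card_top Q g).trans (mem_Few.1 hg).2)
      rw [Finset.mem_filter] at hx ⊢
      refine ⟨Finset.mem_univ _, ?_⟩
      by_contra hT
      apply hx.2
      show res Q κ u w o g (ex c) x = none
      unfold res
      rw [if_neg hT]
  · rintro ⟨g, c⟩ hy ⟨g', c'⟩ hy' hyy
    rw [Finset.mem_coe, Finset.mem_sigma] at hy hy'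
    obtain ⟨hg, hc⟩ := hy
    obtain ⟨hg', hc'⟩ := hy'
    simp only at hg hc hg' hc'
    simp only [Prod.mk.injEq] at hyy
    obtain ⟨hF, hR⟩ := hyy
    have hF' : ∀ x, F Q κ u w o g (ex c) x = F Q κ u w o g' (ex c') x := by
      intro x
      have h2 := congrArg Fin.val (congrFun hF x)
      simp only at h2
      rwa [Nat.mod_eq_of_lt (hm0 g hg _ x), Nat.mod_eq_of_lt (hm0 g' hg' _ x)] at h2
    have hT : ∀ x, Top Q g x ↔ Top Q g' x := by
      intro x
      have h2 := congrFun hR x
      unfold res at h2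
      by_cases h3 : Top Q g x
      · by_cases h4 : Top Q g' x
        · simp [h3, h4]
        · rw [if_pos h3, if_neg h4] at h2
          simp at h2
      · by_cases h4 : Top Q g' x
        · rw [if_neg h3, if_pos h4] at h2
          simp at h2
        · simp [h3, h4]
    have hpa : ∀ x, Top Q g x → pa Q g x = pa Q g' x := by
      intro x h3
      have h4 := (hT x).1 h3
      have h2 := congrFun hR x
      unfold res at h2
      rw [if_pos h3, if_pos h4, Option.some.injEq] at h2
      have h5 := congrArg Fin.val h2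
      have e1 := res_lt (Q := Q) (κ := κ) (o := o) hu hw g (ex c) x
      have e2 := res_lt (Q := Q) (κ := κ) (o := o) hu hw g' (ex c') x
      rw [Fin.val_ofNat, Fin.val_ofNat, Nat.mod_eq_of_lt e1, Nat.mod_eq_of_lt e2] at h5
      obtain ⟨b1, b2⟩ := F_bounds (Q := Q) (κ := κ) (u := u) (w := w) (o := o) hw0 (by omega) g (ex c) x
      obtain ⟨b3, b4⟩ := F_bounds (Q := Q) (κ := κ) (u := u) (w := w) (o := o) hw0 (by omega) g' (ex c') x
      rw [hF' x] at h5 b1 b2
      set A := F Q κ u w o g' (ex c') x * w with hA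
      have d1 := Nat.div_add_mod (G Q κ u o g x + u - A) u
      have d2 := Nat.div_add_mod (G Q κ u o g' x + u - A) u
      have m1 := Nat.mod_lt (G Q κ u o g x + u - A) hu
      have m2 := Nat.mod_lt (G Q κ u o g' x + u - A) hu
      rw [h5] at d1
      rcases lt_trichotomy (pa Q g x) (pa Q g' x) with hlt | heq | hlt
      · exfalso
        have h6 := Nat.mul_le_mul_left u (Nat.succ_le_of_lt hlt)
        rw [Nat.succ_eq_add_one, mul_add, mul_one] at h6
        have h7 : G Q κ u o g x + u ≤ G Q κ u o g' x := by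
          unfold G
          omega
        omega
      · exact heq
      · exfalso
        have h6 := Nat.mul_le_mul_left u (Nat.succ_le_of_lt hlt)
        rw [Nat.succ_eq_add_one, mul_add, mul_one] at h6
        have h7 : G Q κ u o g' x + u ≤ G Q κ u o g x := by
          unfold G
          omega
        omega
    have hgg : g = g' := det hκ htr (mem_Few.1 hg).1 (mem_Few.1 hg').1 hT hpa
    subst hgg
    have hcc : c = c' := by
      funext i
      have hi : c i ≤ (E Q κ u w o g i.1.val i.2.val).card := by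
        have := Fintype.mem_piFinset.1 hc i
        rw [Finset.mem_range] at this
        omega
      have hi' : c' i ≤ (E Q κ u w o g i.1.val i.2.val).card := by
        have := Fintype.mem_piFinset.1 hc' i
        rw [Finset.mem_range] at this
        omega
      have k1 := card_moved (u := u) (w := w) (o := o) hκ htr g (ex c) i.1.val i.2.val
        (by rw [ex_eq]; exact hi)
      have k2 := card_moved (u := u) (w := w) (o := o) hκ htr g (ex c') i.1.val i.2.val
        (by rw [ex_eq]; exact hi')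
      rw [ex_eq] at k1 k2
      rw [← k1, ← k2]
      congr 1
      apply Finset.filter_congr
      intro x _
      rw [hF' x]
    rw [hcc]

end Pool.LH38
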