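import Pool.Agent.LH38.Pc
import Pool.Agent.SC25.Defs

set_option autoImplicit false

/-!
# LH38/Maps: many order-preserving maps from a word with few pieces

`G x = κ x + u * (piece number) + o`; a letter is in a window if `w - u ≤ G x % w`; the letters of one
piece in one window may be cut: the upper part is moved up by one level.
-/

namespace Pool.LH38

open Pool.HB45 Pool.PH43 Pool.SC25

variable {N : ℕ}

/-- the value of a letter in fine units -/
noncomputable def G (Q : Rel (N + 1)) (κ : Fin (N + 1) → ℕ) (u o : ℕ)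
    (g : Equiv.Perm (Fin (N + 1))) (x : Fin (N + 1)) : ℕ := κ x + u * pa Q g x + o

/-- the letters of piece `a` in the window at the end of level `q` -/
noncomputable def E (Q : Rel (N + 1)) (κ : Fin (N + 1) → ℕ) (u w o : ℕ)
    (g : Equiv.Perm (Fin (N + 1))) (a q : ℕ) : Finset (Fin (N + 1)) :=
  Finset.univ.filter fun x => w - u ≤ G Q κ u o g x % w ∧ pa Q g x = a ∧ G Q κ u o g x / w = q

theorem mem_E {Q : Rel (N + 1)} {κ : Fin (N + 1) → ℕ} {u w o : ℕ}
    {g : Equiv.Perm (Fin (N + 1))} {a q : ℕ} {x : Fin (N + 1)} : x ∈ E Q κ u w o g a q ↔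
      w - u ≤ G Q κ u o g x % w ∧ pa Q g x = a ∧ G Q κ u o g x / w = q := by
  simp [E]

/-- number of letters above `x` in its window -/
noncomputable def rk (Q : Rel (N + 1)) (κ : Fin (N + 1) → ℕ) (u w o : ℕ)
    (g : Equiv.Perm (Fin (N + 1))) (x : Fin (N + 1)) : ℕ :=
  ((E Q κ u w o g (pa Q g x) (G Q κ u o g x / w)).filter fun y => κ x < κ y).card

/-- `x` is moved up -/
def Mv (Q : Rel (N + 1)) (κ : Fin (N + 1) → ℕ) (u w o : ℕ) (g : Equiv.Perm (Fin (N + 1)))
    (c : ℕ → ℕ → ℕ) (x : Fin (N + 1)) : Prop :=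
  w - u ≤ G Q κ u o g x % w ∧ rk Q κ u w o g x < c (pa Q g x) (G Q κ u o g x / w)

open Classical in
/-- the map -/
noncomputable def F (Q : Rel (N + 1)) (κ : Fin (N + 1) → ℕ) (u w o : ℕ)
    (g : Equiv.Perm (Fin (N + 1))) (c : ℕ → ℕ → ℕ) (x : Fin (N + 1)) : ℕ :=
  G Q κ u o g x / w + if Mv Q κ u w o g c x then 1 else 0

theorem kappa_inj {h : ℕ} {Q : Rel (N + 1)} {κ : Fin (N + 1) → ℕ} (hκ : Lev h Q κ)
    (htr : ∀ a b c, Q a b → Q b c → Q a c) (g : Equiv.Perm (Fin (N + 1))) {x y : Fin (N + 1)}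
    (hp : pa Q g x = pa Q g y) (hk : κ x = κ y) : x = y := by
  rcases lt_trichotomy (g.symm x) (g.symm y) with h | h | h
  · have h1 := comp htr g h hp
    rw [Equiv.apply_symm_apply, Equiv.apply_symm_apply] at h1
    have := hκ.mono _ _ h1
    omega
  · exact g.symm.injective h
  · have h1 := comp htr g h hp.symm
    rw [Equiv.apply_symm_apply, Equiv.apply_symm_apply] at h1
    have := hκ.mono _ _ h1
    omega

theorem F_bounds {Q : Rel (N + 1)} {κ : Fin (N + 1) → ℕ} {u w o : ℕ} (hw : 0 < w) (huw : u ≤ w)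
    (g : Equiv.Perm (Fin (N + 1))) (c : ℕ → ℕ → ℕ) (x : Fin (N + 1)) :
    F Q κ u w o g c x * w ≤ G Q κ u o g x + u ∧ G Q κ u o g x < (F Q κ u w o g c x + 1) * w := by
  have h1 := Nat.div_add_mod (G Q κ u o g x) w
  have h2 := Nat.mod_lt (G Q κ u o g x) hw
  unfold F
  split_ifs with h
  · have h3 := h.1
    constructor
    · nlinarith [Nat.sub_add_cancel huw]
    · nlinarith
  · constructor
    · rw [add_zero]
      exact (Nat.div_mul_le_self _ _).trans (Nat.le_add_right _ _)
    · nlinarith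

theorem G_lt {h : ℕ} {Q : Rel (N + 1)} {κ : Fin (N + 1) → ℕ} (hκ : Lev h Q κ) {u o : ℕ}
    {g : Equiv.Perm (Fin (N + 1))} (hg : g ∈ LE Q) {x y : Fin (N + 1)} (hxy : Q x y) :
    G Q κ u o g x < G Q κ u o g y := by
  have h1 := hκ.mono _ _ hxy
  have h2 := Nat.mul_le_mul_left u (pa_le hg (Or.inr hxy))
  unfold G
  omega

theorem F_mono {h : ℕ} {Q : Rel (N + 1)} {κ : Fin (N + 1) → ℕ} (hκ : Lev h Q κ) {u w o : ℕ}
    (hw : 0 < w) {g : Equiv.Perm (Fin (N + 1))} (hg : g ∈ LE Q) (c : ℕ → ℕ → ℕ)
    {x y : Fin (N + 1)} (hxy : Q x y) : F Q κ u w o g c x ≤ F Q κ u w o g c y := by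
  have h1 := G_lt (u := u) (o := o) hκ hg hxy
  have h2 : G Q κ u o g x / w ≤ G Q κ u o g y / w := Nat.div_le_div_right h1.le
  rcases eq_or_lt_of_le h2 with h3 | h3
  · by_cases hx : Mv Q κ u w o g c x
    · have hy : Mv Q κ u w o g c y := by
        have h4 := Nat.div_add_mod (G Q κ u o g x) w
        have h5 := Nat.div_add_mod (G Q κ u o g y) w
        rw [← h3] at h5
        have h6 : w - u ≤ G Q κ u o g y % w := by
          have := hx.1
          omega
        have hpa : pa Q g x = pa Q g y := by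
          have h7 := pa_le hg (Or.inr hxy)
          by_contra hne
          have h8 : pa Q g x + 1 ≤ pa Q g y := by omega
          have h9 := Nat.mul_le_mul_left u h8
          have h10 := hκ.mono _ _ hxy
          have h11 := Nat.mod_lt (G Q κ u o g y) hw
          have h12 := hx.1
          have h13 : G Q κ u o g x + u < G Q κ u o g y := by
            unfold G
            rw [mul_add, mul_one] at h9
            omega
          omega
        refine ⟨h6, lt_of_le_of_lt ?_ (hpa ▸ h3 ▸ hx.2)⟩
        unfold rk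
        rw [← hpa, ← h3]
        refine Finset.card_le_card fun z hz => ?_
        rw [Finset.mem_filter] at hz ⊢
        exact ⟨hz.1, (hκ.mono _ _ hxy).trans hz.2⟩
      unfold F
      rw [if_pos hx, if_pos hy, h3]
    · unfold F
      rw [if_neg hx, h3]
      omega
  · unfold F
    split_ifs <;> omega

/-- the number of letters moved up in a window -/
theorem card_moved {h : ℕ} {Q : Rel (N + 1)} {κ : Fin (N + 1) → ℕ} (hκ : Lev h Q κ)
    (htr : ∀ a b c, Q a b → Q b c → Q a c) {u w o : ℕ} (g : Equiv.Perm (Fin (N + 1)))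
    (c : ℕ → ℕ → ℕ) (a q : ℕ) (hc : c a q ≤ (E Q κ u w o g a q).card) :
    ((E Q κ u w o g a q).filter fun x => F Q κ u w o g c x = q + 1).card = c a q := by
  classical
  set S := E Q κ u w o g a q with hS
  -- ranks
  have hrk : ∀ x ∈ S, rk Q κ u w o g x = (S.filter fun y => κ x < κ y).card := by
    intro x hx
    obtain ⟨-, h2, h3⟩ := mem_E.1 hx
    unfold rk
    rw [h2, h3]
  have hinj : Set.InjOn (fun x => (S.filter fun y => κ x < κ y).card) S := by
    have key : ∀ x ∈ S, ∀ y ∈ S, κ x < κ y →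
        (S.filter fun z => κ y < κ z).card < (S.filter fun z => κ x < κ z).card := by
      intro x hx y hy hxy
      apply Finset.card_lt_card
      rw [Finset.ssubset_iff_of_subset (fun z hz => by
        rw [Finset.mem_filter] at hz ⊢
        exact ⟨hz.1, hxy.trans hz.2⟩)]
      exact ⟨y, Finset.mem_filter.2 ⟨hy, hxy⟩, fun hy' => lt_irrefl _ (Finset.mem_filter.1 hy').2⟩
    intro x hx y hy hxy
    simp only at hxy
    rcases lt_trichotomy (κ x) (κ y) with h1 | h1 | h1
    · have := key x hx y hy h1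
      omega
    · refine kappa_inj hκ htr g ?_ h1
      rw [(mem_E.1 (Finset.mem_coe.1 hx)).2.1, (mem_E.1 (Finset.mem_coe.1 hy)).2.1]
    · have := key y hy x hx h1
      omega
  have himg : S.image (fun x => (S.filter fun y => κ x < κ y).card) = Finset.range S.card := by
    apply Finset.eq_of_subset_of_card_le
    · intro r hr
      obtain ⟨x, hx, rfl⟩ := Finset.mem_image.1 hr
      rw [Finset.mem_range]
      apply Finset.card_lt_card
      rw [Finset.ssubset_iff_of_subset (Finset.filter_subset _ _)]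
      exact ⟨x, hx, fun hx' => lt_irrefl _ (Finset.mem_filter.1 hx').2⟩
    · rw [Finset.card_range, Finset.card_image_of_injOn hinj]
  have h1 : (S.filter fun x => F Q κ u w o g c x = q + 1) =
      S.filter fun x => (S.filter fun y => κ x < κ y).card < c a q := by
    apply Finset.filter_congr
    intro x hx
    obtain ⟨h2, h3, h4⟩ := mem_E.1 hx
    rw [← hrk x hx]
    unfold F Mv
    rw [h3, h4]
    constructor
    · intro h5
      by_contra h6
      rw [if_neg (fun h7 => h6 h7.2)] at h5
      omega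
    · intro h5
      rw [if_pos ⟨h2, h5⟩]
  rw [h1]
  have h2 : (S.filter fun x => (S.filter fun y => κ x < κ y).card < c a q).card =
      ((S.image (fun x => (S.filter fun y => κ x < κ y).card)).filter fun r => r < c a q).card := by
    rw [Finset.filter_image, Finset.card_image_of_injOn]
    exact hinj.mono (fun x hx => Finset.mem_coe.2 (Finset.mem_filter.1 (Finset.mem_coe.1 hx)).1)
  rw [h2, himg]
  have h3 : (Finset.range S.card).filter (fun r => r < c a q) = Finset.range (c a q) := by
    ext r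
    simp only [Finset.mem_filter, Finset.mem_range]
    omega
  rw [h3, Finset.card_range]

/-- the windows are short -/
theorem card_E_le {h : ℕ} {Q : Rel (N + 1)} {κ : Fin (N + 1) → ℕ} (hκ : Lev h Q κ)
    (htr : ∀ a b c, Q a b → Q b c → Q a c) {u w o : ℕ} (hw : 0 < w) (huw : u ≤ w)
    (g : Equiv.Perm (Fin (N + 1))) (a q : ℕ) : (E Q κ u w o g a q).card ≤ u := by
  have h1 : (E Q κ u w o g a q).card ≤ (Finset.Ico (w - u) w).card := by
    refine Finset.card_le_card_of_injOn (fun x => G Q κ u o g x % w) ?_ ?_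
    · intro x hx
      obtain ⟨h2, -, -⟩ := mem_E.1 (Finset.mem_coe.1 hx)
      rw [Finset.mem_coe, Finset.mem_Ico]
      exact ⟨h2, Nat.mod_lt _ hw⟩
    · intro x hx y hy hxy
      obtain ⟨-, h3, h4⟩ := mem_E.1 (Finset.mem_coe.1 hx)
      obtain ⟨-, h5, h6⟩ := mem_E.1 (Finset.mem_coe.1 hy)
      have hxy' : G Q κ u o g x % w = G Q κ u o g y % w := hxy
      have h7 := Nat.div_add_mod (G Q κ u o g x) w
      have h8 := Nat.div_add_mod (G Q κ u o g y) w
      rw [h4, hxy'] at h7
      rw [h6] at h8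
      have h9 : G Q κ u o g x = G Q κ u o g y := by rw [← h7, h8]
      refine kappa_inj hκ htr g (by rw [h3, h5]) ?_
      unfold G at h9
      rw [h3, h5] at h9
      omega
  rw [Nat.card_Ico] at h1
  omega

end Pool.LH38
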