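import Mathlib

set_option autoImplicit false

/-!
# LH38/Num: the numerical inequality
-/

namespace Pool.LH38

theorem exp_ge {m : ℝ} (hm : 18 ≤ m) : 60 * m ≤ Real.exp m := by
  have h1 : (1 + m / 6) ^ 6 ≤ Real.exp m := by
    have h2 : m / 6 + 1 ≤ Real.exp (m / 6) := Real.add_one_le_exp _
    have h3 : Real.exp m = Real.exp (m / 6) ^ 6 := by
      rw [← Real.exp_nat_mul]
      congr 1
      push_cast
      ring
    rw [h3]
    exact pow_le_pow_left₀ (by linarith) (by linarith) 6
  refine le_trans ?_ h1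
  have h4 : (4 : ℝ) ≤ 1 + m / 6 := by linarith
  have h5 : (4 : ℝ) ^ 5 ≤ (1 + m / 6) ^ 5 := pow_le_pow_left₀ (by norm_num) h4 5
  calc 60 * m ≤ 4 ^ 5 * (1 + m / 6) := by linarith
    _ ≤ (1 + m / 6) ^ 5 * (1 + m / 6) := mul_le_mul_of_nonneg_right h5 (by linarith)
    _ = (1 + m / 6) ^ 6 := by ring

/-- `u = 1` -/
theorem core1 {l : ℝ} (hl : 4000 ≤ l) : 6 * Real.log l + 34 ≤ l / 30 * Real.log 2 := by
  have h1 : Real.log l = Real.log 4000 + Real.log (l / 4000) := by
    rw [← Real.log_mul (by norm_num) (by positivity)]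
    congr 1
    ring
  have h2 : Real.log (l / 4000) ≤ l / 4000 - 1 := Real.log_le_sub_one_of_pos (by positivity)
  have h3 : Real.log 4000 ≤ 8.32 := by
    have h4 : Real.log (4000 : ℝ) ≤ Real.log (2 ^ 12) :=
      Real.log_le_log (by norm_num) (by norm_num)
    rw [Real.log_pow] at h4
    have h5 := Real.log_two_lt_d9
    push_cast at h4
    linarith
  have h6 := Real.log_two_gt_d9
  have h7 : l / 30 * 0.6931471803 ≤ l / 30 * Real.log 2 := by
    apply mul_le_mul_of_nonneg_left h6.le
    positivity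
  nlinarith

/-- `u ≥ 2` -/
theorem core2 {v : ℝ} (hv : 2 ≤ v) :
    7 * Real.log (10000 * v) + 34 ≤ 10000 / 30 * Real.log (1 + v) := by
  have h1 : Real.log (10000 * v) = Real.log 10000 + Real.log v :=
    Real.log_mul (by norm_num) (by positivity)
  have h2 : Real.log v ≤ Real.log (1 + v) := Real.log_le_log (by positivity) (by linarith)
  have h3 : Real.log 2 ≤ Real.log (1 + v) := Real.log_le_log (by norm_num) (by linarith)
  have h4 := Real.log_two_gt_d9
  have h5 : Real.log 10000 ≤ 14 * Real.log 2 := by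
    have h6 : Real.log (10000 : ℝ) ≤ Real.log (2 ^ 14) :=
      Real.log_le_log (by norm_num) (by norm_num)
    rw [Real.log_pow] at h6
    push_cast at h6
    exact h6
  have h7 := Real.log_two_lt_d9
  nlinarith

theorem mono {u v : ℝ} (hu : 0 < u) (huv : u ≤ v) :
    u * Real.log (1 + v) ≤ v * Real.log (1 + u) := by
  have hv : 0 < v := by linarith
  have h1 : (1 + v) ^ (u / v) ≤ 1 + u / v * v :=
    rpow_one_add_le_one_add_mul_self (by linarith) (by positivity)
      (by rw [div_le_one hv]; exact huv)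
  rw [div_mul_cancel₀ _ hv.ne'] at h1
  have h2 := Real.log_le_log (by positivity) h1
  rw [Real.log_rpow (by linarith)] at h2
  rw [div_mul_eq_mul_div, div_le_iff₀ hv] at h2
  linarith

/-- THE NUMERICAL INEQUALITY. -/
theorem num {n m h u : ℕ} (hm : 18 ≤ m) (hn : 4000 * m ≤ n) (hh : 1000 * h ≤ n) (hu0 : 1 ≤ u)
    (hu : u = 1 ∨ (2 ≤ u ∧ 10 * m * u ≤ h)) :
    2 * ((30 * u : ℕ) : ℝ) * m * (((n : ℝ) / m) ^ m * Real.exp (2 * m)) *
      (((n : ℝ) / m) ^ (5 * m) * Real.exp (31 * m)) ≤
      (1 + (u : ℝ)) ^ ((n : ℝ) / ((30 * u : ℕ) : ℝ)) := by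
  have hm' : (18 : ℝ) ≤ m := by exact_mod_cast hm
  have hm0 : (0 : ℝ) < m := by linarith
  have hn' : 4000 * (m : ℝ) ≤ n := by exact_mod_cast hn
  have hn0 : (0 : ℝ) < n := by linarith
  have hu1 : (1 : ℝ) ≤ u := by exact_mod_cast hu0
  have hu2 : (0 : ℝ) < u := by linarith
  set l : ℝ := (n : ℝ) / m with hl
  have hl4 : 4000 ≤ l := by rw [hl, le_div_iff₀ hm0]; exact hn'
  have hl0 : 0 < l := by linarith
  have hnl : (n : ℝ) = m * l := by rw [hl]; field_simp
  have hlog : 0 ≤ Real.log l := Real.log_nonneg (by linarith)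
  have hlm : ∀ k : ℕ, l ^ k = Real.exp (k * Real.log l) := by
    intro k
    rw [Real.exp_nat_mul, Real.exp_log hl0]
  have hR : (1 + (u : ℝ)) ^ ((n : ℝ) / ((30 * u : ℕ) : ℝ)) =
      Real.exp (m * (l / (30 * u) * Real.log (1 + u))) := by
    rw [Real.rpow_def_of_pos (by linarith), hnl]
    congr 1
    push_cast
    ring
  rw [hR, hlm, hlm]
  have hm60 := exp_ge hm'
  -- the factor `60 u m`
  have key : 2 * ((30 * u : ℕ) : ℝ) * m ≤ Real.exp (m * (l / (30 * u) * Real.log (1 + u)) -
      6 * m * Real.log l - 33 * m) := by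
    rcases hu with rfl | ⟨hu3, hu4⟩
    · have h1 := core1 hl4
      have h2 : (m : ℝ) ≤ m * (l / (30 * (1 : ℕ)) * Real.log (1 + (1 : ℕ))) -
          6 * m * Real.log l - 33 * m := by
        have h3 := mul_le_mul_of_nonneg_left h1 hm0.le
        push_cast
        norm_num
        nlinarith
      refine le_trans ?_ (Real.exp_le_exp.2 h2)
      push_cast
      linarith
    · have h4 : 10000 * (u : ℝ) * m ≤ n := by
        have h5 : 1000 * (10 * m * u) ≤ n := (Nat.mul_le_mul_left 1000 hu4).trans hh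
        have h6 : ((1000 * (10 * m * u) : ℕ) : ℝ) ≤ n := by exact_mod_cast h5
        push_cast at h6
        linarith
      have h7 : 10000 * (u : ℝ) ≤ l := by rw [hl, le_div_iff₀ hm0]; exact h4
      have hu3' : (2 : ℝ) ≤ u := by exact_mod_cast hu3
      have h8 : (u : ℝ) ≤ l / 10000 := by linarith
      have h9 := mono hu2 h8
      have h10 := core2 (v := l / 10000) (by linarith)
      rw [show 10000 * (l / 10000) = l by ring] at h10
      have h11 : 7 * Real.log l + 34 ≤ l / (30 * u) * Real.log (1 + u) := by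
        have h12 : 10000 / 30 * Real.log (1 + l / 10000) ≤ l / (30 * u) * Real.log (1 + u) := by
          rw [div_mul_eq_mul_div l, le_div_iff₀ (by positivity)]
          nlinarith
        linarith
      have h13 := mul_le_mul_of_nonneg_left h11 hm0.le
      have h14 : (m : ℝ) + Real.log l ≤ m * (l / (30 * u) * Real.log (1 + u)) -
          6 * m * Real.log l - 33 * m := by nlinarith
      refine le_trans ?_ (Real.exp_le_exp.2 h14)
      rw [Real.exp_add, Real.exp_log hl0]
      push_cast
      have h15 : 2 * (30 * (u : ℝ)) * m = (60 * m) * u := by ring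
      rw [h15]
      exact mul_le_mul hm60 (by linarith) hu2.le (Real.exp_pos _).le
  calc 2 * ((30 * u : ℕ) : ℝ) * m * (Real.exp (m * Real.log l) * Real.exp (2 * m)) *
      (Real.exp (((5 * m : ℕ) : ℝ) * Real.log l) * Real.exp (31 * m))
      = 2 * ((30 * u : ℕ) : ℝ) * m * Real.exp (6 * m * Real.log l + 33 * m) := by
        rw [mul_assoc (2 * ((30 * u : ℕ) : ℝ) * m), ← Real.exp_add, ← Real.exp_add, ← Real.exp_add]
        congr 2
        push_cast
        ring
    _ ≤ Real.exp (m * (l / (30 * u) * Real.log (1 + u)) - 6 * m * Real.log l - 33 * m) *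
        Real.exp (6 * m * Real.log l + 33 * m) :=
        mul_le_mul_of_nonneg_right key (Real.exp_pos _).le
    _ = _ := by
        rw [← Real.exp_add]
        congr 1
        ring

end Pool.LH38
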