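import Pool.Agent.PH43.Small

set_option autoImplicit false

/-!
# LH38/Pc: the pieces of a word

`pc Q g i`: number of incomparable neighbour pairs before position `i`; the pieces of the word are the
maximal segments with comparable neighbours, and `pc` numbers them. A word is determined by its set
of tops (last letters of the pieces) together with the piece numbers of the tops.
-/

namespace Pool.LH38

open Pool.HB45 Pool.PH43

/-- number of incomparable neighbour pairs before position `i` -/
noncomputable def pc {N : ℕ} (Q : Rel (N + 1)) (g : Equiv.Perm (Fin (N + 1))) (i : Fin (N + 1)) : ℕ := by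
  classical
  exact (Finset.univ.filter fun p : Fin N => p.val < i.val ∧ ¬ Q (g p.castSucc) (g p.succ)).card

/-- number of incomparable neighbour pairs -/
noncomputable def inc {N : ℕ} (Q : Rel (N + 1)) (g : Equiv.Perm (Fin (N + 1))) : ℕ := by
  classical
  exact (Finset.univ.filter fun p : Fin N => ¬ Q (g p.castSucc) (g p.succ)).card

/-- piece number of a letter -/
noncomputable def pa {N : ℕ} (Q : Rel (N + 1)) (g : Equiv.Perm (Fin (N + 1))) (x : Fin (N + 1)) : ℕ :=
  pc Q g (g.symm x)

/-- last letter of a piece -/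
def Top {N : ℕ} (Q : Rel (N + 1)) (g : Equiv.Perm (Fin (N + 1))) (x : Fin (N + 1)) : Prop :=
  ∀ j, g.symm x < j → pc Q g (g.symm x) < pc Q g j

theorem pc_le_inc {N : ℕ} (Q : Rel (N + 1)) (g : Equiv.Perm (Fin (N + 1))) (i : Fin (N + 1)) :
    pc Q g i ≤ inc Q g := by
  classical
  unfold pc inc
  exact Finset.card_le_card fun p hp => by
    rw [Finset.mem_filter] at hp ⊢
    exact ⟨hp.1, hp.2.2⟩

theorem pc_mono {N : ℕ} (Q : Rel (N + 1)) (g : Equiv.Perm (Fin (N + 1))) {i j : Fin (N + 1)}
    (h : i ≤ j) : pc Q g i ≤ pc Q g j := by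
  classical
  unfold pc
  exact Finset.card_le_card fun p hp => by
    rw [Finset.mem_filter] at hp ⊢
    exact ⟨hp.1, lt_of_lt_of_le hp.2.1 h, hp.2.2⟩

theorem comp_aux {N : ℕ} {Q : Rel (N + 1)} (htr : ∀ a b c, Q a b → Q b c → Q a c)
    (g : Equiv.Perm (Fin (N + 1))) (d : ℕ) : ∀ i j : Fin (N + 1), j.val = i.val + d + 1 →
      pc Q g i = pc Q g j → Q (g i) (g j) := by
  classical
  have base : ∀ i j : Fin (N + 1), j.val = i.val + 1 → pc Q g i = pc Q g j → Q (g i) (g j) := by
    intro i j hij hpc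
    by_contra hQ
    have hiN : i.val < N := by have := j.isLt; omega
    have h1 : (⟨i.val, hiN⟩ : Fin N).castSucc = i := Fin.ext rfl
    have h2 : (⟨i.val, hiN⟩ : Fin N).succ = j := Fin.ext (by simp; omega)
    have h3 : pc Q g i < pc Q g j := by
      unfold pc
      apply Finset.card_lt_card
      rw [Finset.ssubset_iff_of_subset (fun p hp => by
        rw [Finset.mem_filter] at hp ⊢
        exact ⟨hp.1, by omega, hp.2.2⟩)]
      refine ⟨⟨i.val, hiN⟩, ?_, ?_⟩
      · rw [Finset.mem_filter, h1, h2]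
        exact ⟨Finset.mem_univ _, by simp; omega, hQ⟩
      · rw [Finset.mem_filter]
        rintro ⟨-, h4, -⟩
        simp at h4
    omega
  induction d with
  | zero =>
    intro i j hij hpc
    exact base i j (by omega) hpc
  | succ d ih =>
    intro i j hij hpc
    have hj : i.val + d + 1 < N + 1 := by have := j.isLt; omega
    have h1 : pc Q g i ≤ pc Q g ⟨i.val + d + 1, hj⟩ := pc_mono Q g (by
      rw [Fin.le_def]; simp; omega)
    have h2 : pc Q g ⟨i.val + d + 1, hj⟩ ≤ pc Q g j := pc_mono Q g (by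
      rw [Fin.le_def]; simp; omega)
    exact htr _ _ _ (ih i ⟨i.val + d + 1, hj⟩ rfl (by omega))
      (base ⟨i.val + d + 1, hj⟩ j (by simp; omega) (by omega))

/-- letters of one piece are comparable -/
theorem comp {N : ℕ} {Q : Rel (N + 1)} (htr : ∀ a b c, Q a b → Q b c → Q a c)
    (g : Equiv.Perm (Fin (N + 1))) {i j : Fin (N + 1)} (hij : i < j)
    (hpc : pc Q g i = pc Q g j) : Q (g i) (g j) := by
  have hij' : i.val < j.val := hij
  exact comp_aux htr g (j.val - i.val - 1) i j (by omega) hpc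

theorem exists_top {N : ℕ} {Q : Rel (N + 1)} (htr : ∀ a b c, Q a b → Q b c → Q a c)
    (g : Equiv.Perm (Fin (N + 1))) (x : Fin (N + 1)) :
    ∃ t, Top Q g t ∧ (x = t ∨ Q x t) ∧ pa Q g t = pa Q g x := by
  classical
  set i := g.symm x with hi
  have hne : (Finset.univ.filter fun j : Fin (N + 1) => pc Q g j = pc Q g i).Nonempty :=
    ⟨i, by simp⟩
  obtain ⟨j, hj, hmax⟩ := Finset.exists_max_image _ (fun j : Fin (N + 1) => j) hne
  rw [Finset.mem_filter] at hj
  have hij : i ≤ j := hmax i (by simp)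
  refine ⟨g j, ?_, ?_, ?_⟩
  · intro j' hj'
    rw [Equiv.symm_apply_apply] at hj' ⊢
    refine lt_of_le_of_ne (pc_mono Q g hj'.le) fun h => ?_
    have := hmax j' (by rw [Finset.mem_filter]; exact ⟨Finset.mem_univ _, by rw [← h, hj.2]⟩)
    exact absurd hj' (not_lt.2 this)
  · rcases eq_or_lt_of_le hij with h | h
    · left
      rw [← h, hi, Equiv.apply_symm_apply]
    · right
      have := comp htr g h hj.2.symm
      rwa [hi, Equiv.apply_symm_apply] at this
  · unfold pa
    rw [Equiv.symm_apply_apply, hj.2]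

theorem pa_le {N : ℕ} {Q : Rel (N + 1)} {g : Equiv.Perm (Fin (N + 1))} (hg : g ∈ LE Q)
    {x y : Fin (N + 1)} (h : x = y ∨ Q x y) : pa Q g x ≤ pa Q g y := by
  rcases h with rfl | h
  · exact le_rfl
  · apply pc_mono
    have := mem_LE.1 hg (g.symm x) (g.symm y) (by simpa using h)
    exact this.le

/-- the number of tops -/
theorem card_top {N : ℕ} (Q : Rel (N + 1)) (g : Equiv.Perm (Fin (N + 1)))
    [DecidablePred (Top Q g)] : (Finset.univ.filter (Top Q g)).card ≤ inc Q g + 1 := by
  have h1 : (Finset.univ.filter (Top Q g)).card ≤ (Finset.range (inc Q g + 1)).card := by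
    refine Finset.card_le_card_of_injOn (fun x => pa Q g x) ?_ ?_
    · intro x _
      rw [Finset.mem_coe, Finset.mem_range]
      exact Nat.lt_succ_of_le (pc_le_inc Q g _)
    · intro x hx y hy hxy
      rw [Finset.mem_coe, Finset.mem_filter] at hx hy
      rcases lt_trichotomy (g.symm x) (g.symm y) with h | h | h
      · have := hx.2 _ h
        have h2 : pc Q g (g.symm x) = pc Q g (g.symm y) := hxy
        omega
      · exact g.symm.injective h
      · have := hy.2 _ h
        have h2 : pc Q g (g.symm x) = pc Q g (g.symm y) := hxy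
        omega
  rwa [Finset.card_range] at h1

/-- the key of a letter -/
noncomputable def key {N : ℕ} (Q : Rel (N + 1)) (κ : Fin (N + 1) → ℕ)
    (g : Equiv.Perm (Fin (N + 1))) (x : Fin (N + 1)) : ℕ ×ₗ ℕ := toLex (pa Q g x, κ x)

theorem key_lt {N h : ℕ} {Q : Rel (N + 1)} {κ : Fin (N + 1) → ℕ} (hκ : Lev h Q κ)
    (htr : ∀ a b c, Q a b → Q b c → Q a c) (g : Equiv.Perm (Fin (N + 1))) {i j : Fin (N + 1)}
    (hij : i < j) : key Q κ g (g i) < key Q κ g (g j) := by
  unfold key pa
  rw [Equiv.symm_apply_apply, Equiv.symm_apply_apply, Prod.Lex.toLex_lt_toLex]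
  rcases eq_or_lt_of_le (pc_mono Q g hij.le) with h | h
  · exact Or.inr ⟨h, hκ.mono _ _ (comp htr g hij h)⟩
  · exact Or.inl h

/-- A WORD IS DETERMINED BY THE TOPS AND THEIR PIECE NUMBERS. -/
theorem det {N h : ℕ} {Q : Rel (N + 1)} {κ : Fin (N + 1) → ℕ} (hκ : Lev h Q κ)
    (htr : ∀ a b c, Q a b → Q b c → Q a c) {g g' : Equiv.Perm (Fin (N + 1))} (hg : g ∈ LE Q)
    (hg' : g' ∈ LE Q) (htop : ∀ x, Top Q g x ↔ Top Q g' x)
    (hpa : ∀ x, Top Q g x → pa Q g x = pa Q g' x) : g = g' := by
  have h1 : ∀ x, pa Q g x = pa Q g' x := by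
    intro x
    apply le_antisymm
    · obtain ⟨t, ht, hxt, hp⟩ := exists_top htr g' x
      rw [← hp, ← hpa t ((htop t).2 ht)]
      exact pa_le hg hxt
    · obtain ⟨t, ht, hxt, hp⟩ := exists_top htr g x
      rw [← hp, hpa t ht]
      exact pa_le hg' hxt
  have h2 : ∀ x, key Q κ g x = key Q κ g' x := by
    intro x
    unfold key
    rw [h1]
  have h3 : StrictMono fun i => key Q κ g (g i) := fun i j hij => key_lt hκ htr g hij
  have h4 : StrictMono fun i => key Q κ g' (g' i) := fun i j hij => key_lt hκ htr g' hij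
  have h5 : (fun i => key Q κ g (g i)) = fun i => key Q κ g' (g' i) := by
    rw [← StrictMono.range_inj h3 h4]
    ext y
    constructor
    · rintro ⟨i, rfl⟩
      exact ⟨g'.symm (g i), by simp [h2]⟩
    · rintro ⟨i, rfl⟩
      exact ⟨g.symm (g' i), by simp [h2]⟩
  ext i
  have h6 : key Q κ g (g i) = key Q κ g' (g' i) := congrFun h5 i
  rw [← h2 (g' i)] at h6
  have h7 : Function.Injective (fun i => key Q κ g (g i)) := h3.injective
  have h8 : (fun i => key Q κ g (g i)) i = (fun i => key Q κ g (g i)) (g.symm (g' i)) := by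
    simpa using h6
  have h9 := congrArg g (h7 h8)
  rw [Equiv.apply_symm_apply] at h9
  rw [h9]

end Pool.LH38
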