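import Pool.Agent.LH38.Avg
import Pool.Agent.LH38.Cnt
import Pool.Agent.LH38.Num

set_option autoImplicit false

/-!
# LH38/Small: `w_j ≤ w_(j+1)` for `j + 1 ≤ n / 4000` and height at most `n / 1000`

Note 3569 (MP_dcdbc5_co). `n = N + 1`.
-/

namespace Pool.LH38

open Pool.HB45 Pool.PH43 Pool.SC25

theorem psi_bound {n m : ℕ} (hm : 0 < m) (hmn : m ≤ n) :
    ((Psi n (5 * m)).card : ℝ) ≤ ((n : ℝ) / m) ^ (5 * m) * Real.exp (31 * m) := by
  have hm' : (0 : ℝ) < m := by exact_mod_cast hm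
  have hn' : (0 : ℝ) < n := by
    have : 0 < n := by omega
    exact_mod_cast this
  have hx0 : (0 : ℝ) < (m : ℝ) / n := by positivity
  have hx1 : (m : ℝ) / n ≤ 1 := by rw [div_le_one hn']; exact_mod_cast hmn
  have h1 := psi_le n (5 * m) hx0 hx1
  have h2 : (1 + 31 * ((m : ℝ) / n)) ^ n ≤ Real.exp (31 * m) := by
    have h3 : 1 + 31 * ((m : ℝ) / n) ≤ Real.exp (31 * ((m : ℝ) / n)) := by
      have := Real.add_one_le_exp (31 * ((m : ℝ) / n))
      linarith
    have h4 : Real.exp (31 * (m : ℝ)) = Real.exp (31 * ((m : ℝ) / n)) ^ n := by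
      rw [← Real.exp_nat_mul]
      congr 1
      field_simp
    rw [h4]
    exact pow_le_pow_left₀ (by positivity) h3 n
  have h5 := h1.trans h2
  have h6 : ((n : ℝ) / m) ^ (5 * m) * ((m : ℝ) / n) ^ (5 * m) = 1 := by
    rw [← mul_pow]
    have : (n : ℝ) / m * (m / n) = 1 := by field_simp
    rw [this, one_pow]
  calc ((Psi n (5 * m)).card : ℝ) = ((n : ℝ) / m) ^ (5 * m) *
        (((Psi n (5 * m)).card : ℝ) * ((m : ℝ) / n) ^ (5 * m)) := by
        rw [mul_left_comm, h6, mul_one]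
    _ ≤ _ := mul_le_mul_of_nonneg_left h5 (by positivity)

theorem choose_bound {N m : ℕ} (hm : 0 < m) (hmn : m ≤ N + 1) :
    (((m + N).choose (N + 1) : ℕ) : ℝ) ≤
      (((N + 1 : ℕ) : ℝ) / m) ^ m * Real.exp (2 * m) := by
  have hm' : (0 : ℝ) < m := by exact_mod_cast hm
  have hn' : (0 : ℝ) < ((N + 1 : ℕ) : ℝ) := by positivity
  have hmn' : (m : ℝ) ≤ ((N + 1 : ℕ) : ℝ) := by exact_mod_cast hmn
  set x : ℝ := (m : ℝ) / ((N + 1 : ℕ) : ℝ) with hx
  have hx0 : 0 < x := by positivity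
  have hx1 : x ≤ 1 := by rw [hx, div_le_one hn']; exact hmn'
  have e1 : (m + N).choose (N + 1) = (m + N).choose (m - 1) := by
    rw [← Nat.choose_symm (show N + 1 ≤ m + N by omega)]
    congr 1
    omega
  have h1 := choose_le (m + N) (m - 1) hx0.le
  have h2 : (1 + x) ^ (m + N) ≤ Real.exp (2 * m) := by
    have h3 : 1 + x ≤ Real.exp x := by
      have := Real.add_one_le_exp x
      linarith
    have h4 : (1 + x) ^ (m + N) ≤ Real.exp x ^ (m + N) := pow_le_pow_left₀ (by positivity) h3 _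
    rw [← Real.exp_nat_mul] at h4
    refine h4.trans (Real.exp_le_exp.2 ?_)
    have h5 : (((m + N : ℕ) : ℝ)) ≤ 2 * ((N + 1 : ℕ) : ℝ) := by
      have : m + N ≤ 2 * (N + 1) := by omega
      exact_mod_cast this
    calc ((m + N : ℕ) : ℝ) * x ≤ 2 * ((N + 1 : ℕ) : ℝ) * x :=
          mul_le_mul_of_nonneg_right h5 hx0.le
      _ = 2 * m := by rw [hx]; field_simp
  have h6 : (((m + N).choose (N + 1) : ℕ) : ℝ) * x ^ m ≤ Real.exp (2 * m) := by
    rw [e1]
    refine le_trans ?_ (h1.trans h2)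
    apply mul_le_mul_of_nonneg_left _ (by positivity)
    exact pow_le_pow_of_le_one hx0.le hx1 (Nat.sub_le _ _)
  have h7 : (((N + 1 : ℕ) : ℝ) / m) ^ m * x ^ m = 1 := by
    rw [← mul_pow]
    have : ((N + 1 : ℕ) : ℝ) / m * x = 1 := by rw [hx]; field_simp
    rw [this, one_pow]
  calc (((m + N).choose (N + 1) : ℕ) : ℝ) = (((N + 1 : ℕ) : ℝ) / m) ^ m *
        ((((m + N).choose (N + 1) : ℕ) : ℝ) * x ^ m) := by
        rw [mul_left_comm, h7, mul_one]
    _ ≤ _ := mul_le_mul_of_nonneg_left h6 (by positivity)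

/-- first failure, `18 ≤ j + 1` -/
theorem small_step {N h j : ℕ} {Q : Rel (N + 1)} {κ lab : Fin (N + 1) → ℕ} (hκ : Lev h Q κ)
    (htr : ∀ a b c, Q a b → Q b c → Q a c) (hn : Nat' Q lab) (hh : 1000 * h ≤ N + 1)
    (hj : 4000 * (j + 1) ≤ N + 1) (hj18 : 18 ≤ j + 1)
    (hw : ∀ i ≤ j, w Q lab i ≤ w Q lab j) : w Q lab j ≤ w Q lab (j + 1) := by
  apply w_le_of_few hn
  obtain ⟨m, hm⟩ : ∃ m, m = j + 1 := ⟨_, rfl⟩
  rw [← hm] at hj hj18 ⊢
  obtain ⟨u, hu⟩ : ∃ u, u = h / (20 * m) + 1 := ⟨_, rfl⟩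
  have hu1 : 1 ≤ u := by
    rw [hu]
    exact Nat.le_add_left 1 _
  have hmod := Nat.div_add_mod h (20 * m)
  have hmod2 := Nat.mod_lt h (show 0 < 20 * m by omega)
  have hhu : h ≤ 20 * m * u := by
    rw [hu, mul_add, mul_one]
    omega
  have hu2 : u = 1 ∨ (2 ≤ u ∧ 10 * m * u ≤ h) := by
    rcases Nat.eq_zero_or_pos (h / (20 * m)) with h0 | h0
    · left
      rw [hu, h0]
    · right
      refine ⟨by rw [hu]; exact Nat.succ_le_succ h0, ?_⟩
      have h1 : 20 * m * 1 ≤ 20 * m * (h / (20 * m)) := Nat.mul_le_mul_left _ h0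
      rw [hu, mul_add, mul_one]
      have h2 : 20 * m * (h / (20 * m)) = 2 * (10 * m * (h / (20 * m))) := by ring
      omega
  have hr : h + u * (5 * m) + 30 * u ≤ (m - 1) * (30 * u) := by
    obtain ⟨t, ht⟩ : ∃ t, m = t + 18 := ⟨m - 18, by omega⟩
    have e1 : m - 1 = t + 17 := by omega
    rw [e1]
    rw [ht] at hhu ⊢
    nlinarith
  have h1 := few_le (u := u) (w := 30 * u) (K := 5 * m) (m := m) hκ htr hu1 rfl hr
  have h2 := mp_first hn hw
  rw [← hm] at h2
  have hm0 : 0 < m := by omega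
  have h3 := psi_bound (n := N + 1) hm0 (by omega)
  have h4 := choose_bound (N := N) hm0 (by omega)
  have h5 := num (n := N + 1) (h := h) hj18 hj hh hu1 hu2
  obtain ⟨R, hR⟩ : ∃ R : ℝ, R = (1 + (u : ℝ)) ^ (((N + 1 : ℕ) : ℝ) / ((30 * u : ℕ) : ℝ)) := ⟨_, rfl⟩
  rw [← hR] at h1 h5
  have hR0 : 0 < R := by rw [hR]; positivity
  set A : ℝ := (((N + 1 : ℕ) : ℝ) / m) ^ m * Real.exp (2 * m) with hA
  set B : ℝ := (((N + 1 : ℕ) : ℝ) / m) ^ (5 * m) * Real.exp (31 * m) with hB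
  have hA0 : 0 ≤ A := by positivity
  have hB0 : 0 ≤ B := by positivity
  have h6 : ((Mp Q m).card : ℝ) ≤ m * w Q lab j * A := by
    have h7 : ((Mp Q m).card : ℝ) ≤ ((m * w Q lab j * (m + N).choose (N + 1) : ℕ) : ℝ) := by
      exact_mod_cast h2
    push_cast at h7
    refine h7.trans (mul_le_mul_of_nonneg_left h4 (by positivity))
  have h8 : ((Few Q (5 * m)).card : ℝ) * R ≤
      ((30 * u : ℕ) : ℝ) * (m * w Q lab j * A * B) := by
    refine h1.trans (mul_le_mul_of_nonneg_left ?_ (by positivity))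
    exact mul_le_mul h6 h3 (by positivity) (by positivity)
  have h9 : 2 * ((Few Q (5 * m)).card : ℝ) * R ≤ (w Q lab j : ℝ) * R := by
    calc 2 * ((Few Q (5 * m)).card : ℝ) * R
        = 2 * (((Few Q (5 * m)).card : ℝ) * R) := by ring
      _ ≤ 2 * (((30 * u : ℕ) : ℝ) * (m * w Q lab j * A * B)) := by linarith
      _ = (w Q lab j : ℝ) * (2 * ((30 * u : ℕ) : ℝ) * m * A * B) := by ring
      _ ≤ (w Q lab j : ℝ) * R := mul_le_mul_of_nonneg_left h5 (by positivity)
  have h10 : 2 * ((Few Q (5 * m)).card : ℝ) ≤ (w Q lab j : ℝ) := le_of_mul_le_mul_right h9 hR0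
  exact_mod_cast h10

/-- SMALL `j`, LINEAR HEIGHT. -/
theorem small_lin {N h j : ℕ} {Q : Rel (N + 1)} {κ lab : Fin (N + 1) → ℕ} (hκ : Lev h Q κ)
    (htr : ∀ a b c, Q a b → Q b c → Q a c) (hn : Nat' Q lab) (hh : 1000 * h ≤ N + 1)
    (hj : 4000 * (j + 1) ≤ N + 1) : w Q lab j ≤ w Q lab (j + 1) := by
  have hh1 : 1 ≤ h := by
    have := hκ.lt 0
    omega
  induction j using Nat.strong_induction_on with
  | _ j ih =>
    rcases Nat.lt_or_ge j 17 with h17 | h17
    · refine small hh1 hκ hn ?_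
      have h1 : h * (4 * j + 1) ≤ h * 65 := Nat.mul_le_mul_left h (by omega)
      omega
    · refine small_step hκ htr hn hh hj (by omega) ?_
      have h2 : ∀ d i, i + d = j → w Q lab i ≤ w Q lab j := by
        intro d
        induction d with
        | zero =>
          intro i hi
          rw [add_zero] at hi
          rw [hi]
        | succ d ihd =>
          intro i hi
          exact (ih i (by omega) (by omega)).trans (ihd (i + 1) (by omega))
      intro i hi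
      exact h2 (j - i) i (by omega)

end Pool.LH38
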